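import Mathlib

set_option autoImplicit false

namespace Pool.Agent.H.MP_40e4cd_al

open Finset

/-- generators of a Leavitt path algebra: vertices, arrows, ghost arrows -/
inductive Gen (V E : Type) : Type
  | v : V → Gen V E
  | e : E → Gen V E
  | g : E → Gen V E

/-- the defining relations of the Leavitt path algebra of a finite quiver -/
inductive Rel (K : Type) [Field K] {V E : Type} [Fintype V] [Fintype E] [DecidableEq V]
    [DecidableEq E] (s r : E → V) : FreeAlgebra K (Gen V E) → FreeAlgebra K (Gen V E) → Prop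
  | vv (u w : V) : Rel K s r (FreeAlgebra.ι K (Gen.v u) * FreeAlgebra.ι K (Gen.v w))
      (if u = w then FreeAlgebra.ι K (Gen.v u) else 0)
  | se (a : E) : Rel K s r (FreeAlgebra.ι K (Gen.v (s a)) * FreeAlgebra.ι K (Gen.e a))
      (FreeAlgebra.ι K (Gen.e a))
  | er (a : E) : Rel K s r (FreeAlgebra.ι K (Gen.e a) * FreeAlgebra.ι K (Gen.v (r a)))
      (FreeAlgebra.ι K (Gen.e a))
  | rg (a : E) : Rel K s r (FreeAlgebra.ι K (Gen.v (r a)) * FreeAlgebra.ι K (Gen.g a))
      (FreeAlgebra.ι K (Gen.g a))
  | gs (a : E) : Rel K s r (FreeAlgebra.ι K (Gen.g a) * FreeAlgebra.ι K (Gen.v (s a)))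
      (FreeAlgebra.ι K (Gen.g a))
  | ck1 (a b : E) : Rel K s r (FreeAlgebra.ι K (Gen.g a) * FreeAlgebra.ι K (Gen.e b))
      (if a = b then FreeAlgebra.ι K (Gen.v (r a)) else 0)
  | ck2 (u : V) (h : ∃ a, s a = u) : Rel K s r (FreeAlgebra.ι K (Gen.v u))
      (∑ a ∈ univ.filter (fun a => s a = u), FreeAlgebra.ι K (Gen.e a) * FreeAlgebra.ι K (Gen.g a))
  | one : Rel K s r (∑ u : V, FreeAlgebra.ι K (Gen.v u)) 1

/-- the Leavitt path algebra of the finite quiver with source map `s` and range map `r` -/
abbrev LPA (K : Type) [Field K] {V E : Type} [Fintype V] [Fintype E] [DecidableEq V]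
    [DecidableEq E] (s r : E → V) : Type := RingQuot (Rel K s r)

section T

variable {A : Type} [Ring A] {S : Type} [Fintype S] [DecidableEq S]

/-- Toeplitz data -/
structure TD (x y : A) (p : S → A) : Prop where
  yx : y * x = 1
  xy : x * y + ∑ σ, p σ = 1
  pp : ∀ σ τ, p σ * p τ = if σ = τ then p σ else 0

variable {x y : A} {p : S → A}

theorem TD.px (h : TD x y p) (σ : S) : p σ * x = 0 := by
  have h1 : p σ * (x * y + ∑ τ, p τ) = p σ := by rw [h.xy, mul_one]
  rw [mul_add, Finset.mul_sum] at h1
  simp only [h.pp, Finset.sum_ite_eq, mem_univ, if_true] at h1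
  have h2 : p σ * (x * y) = 0 := by simpa using h1
  have h3 : p σ * (x * y) * x = p σ * x := by
    rw [mul_assoc, mul_assoc, h.yx, mul_one]
  rw [← h3, h2, zero_mul]

theorem TD.yp (h : TD x y p) (σ : S) : y * p σ = 0 := by
  have h1 : (x * y + ∑ τ, p τ) * p σ = p σ := by rw [h.xy, one_mul]
  rw [add_mul, Finset.sum_mul] at h1
  simp only [h.pp, Finset.sum_ite_eq', mem_univ, if_true] at h1
  have h2 : (x * y) * p σ = 0 := by simpa using h1
  have h3 : y * ((x * y) * p σ) = y * p σ := by
    rw [← mul_assoc, ← mul_assoc, h.yx, one_mul]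
  rw [← h3, h2, mul_zero]

variable {V : Type} [Fintype V] [DecidableEq V]

theorem propag (s : V → V) (x y : A) (d : ℕ → V → A)
    (h : ∀ n w, d (n + 1) w = x * (∑ u, if s u = w then d n u else 0) * y) (n : ℕ) (w : V) :
    d n w = x ^ n * (∑ u, if s^[n] u = w then d 0 u else 0) * y ^ n := by
  induction n generalizing w with
  | zero =>
    have e0 : ∀ u, (if s^[0] u = w then d 0 u else 0) = if u = w then d 0 u else 0 :=
      fun u => rfl
    rw [Finset.sum_congr rfl fun u _ => e0 u, Finset.sum_ite_eq']
    simp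
  | succ n ih =>
    rw [h]
    have e1 : (∑ u, if s u = w then d n u else 0) =
        x ^ n * (∑ t, if s^[n + 1] t = w then d 0 t else 0) * y ^ n := by
      have e2 : (∑ t, if s^[n + 1] t = w then d 0 t else 0) =
          ∑ u, if s u = w then (∑ t, if s^[n] t = u then d 0 t else 0) else 0 := by
        have e3 : ∀ u, (if s u = w then (∑ t, if s^[n] t = u then d 0 t else 0) else 0) =
            ∑ t, if s^[n] t = u then (if s u = w then d 0 t else 0) else 0 := by
          intro u
          split_ifs <;> simp
        simp only [e3]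
        rw [Finset.sum_comm]
        refine Finset.sum_congr rfl fun t _ => ?_
        simp [Function.iterate_succ_apply']
      rw [e2, Finset.mul_sum, Finset.sum_mul]
      refine Finset.sum_congr rfl fun u _ => ?_
      split_ifs
      · exact ih u
      · simp
    rw [e1, pow_succ' x n, pow_succ y n]
    simp only [mul_assoc]

theorem vanish (s : V → V) (ρ : V) (N : ℕ) (hN : ∀ u, s^[N] u = ρ) (x y : A) (d : ℕ → V → A)
    (h : ∀ n w, d (n + 1) w = x * (∑ u, if s u = w then d n u else 0) * y)
    (h0 : ∑ u, d 0 u = 0) (w : V) : d N w = 0 := by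
  rw [propag s x y d h N w]
  simp only [hN]
  split_ifs <;> simp [h0]

/-- approximations to the vertex idempotents -/
def qq (s : V → V) (ρ : V) (ι : S → V) (x y : A) (p : S → A) : ℕ → V → A
  | 0, w => if w = ρ then 1 else 0
  | n + 1, w => (∑ σ, if ι σ = w then p σ else 0) +
      x * (∑ u, if s u = w then qq s ρ ι x y p n u else 0) * y

theorem qq_sum (h : TD x y p) (s : V → V) (ρ : V) (ι : S → V) (n : ℕ) :
    ∑ w, qq s ρ ι x y p n w = 1 := by
  induction n with
  | zero => simp [qq]
  | succ n ih =>
    simp only [qq]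
    rw [Finset.sum_add_distrib, Finset.sum_comm, ← Finset.sum_mul, ← Finset.mul_sum,
      Finset.sum_comm (f := fun w u => if s u = w then qq s ρ ι x y p n u else 0)]
    simp only [Finset.sum_ite_eq, mem_univ, if_true, ih, mul_one]
    rw [add_comm, h.xy]

theorem fib_mul {W : Type} [Fintype W] [DecidableEq W] (f : W → V) (a : W → A)
    (ha : ∀ u t, a u * a t = if u = t then a u else 0) (w w' : V) :
    (∑ u, if f u = w then a u else 0) * (∑ u, if f u = w' then a u else 0) =
      if w = w' then ∑ u, if f u = w then a u else 0 else 0 := by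
  rw [Finset.sum_mul]
  have e : ∀ u, (if f u = w then a u else 0) * (∑ t, if f t = w' then a t else 0) =
      if w = w' then (if f u = w then a u else 0) else 0 := by
    intro u
    rw [Finset.mul_sum]
    have e2 : ∀ t, (if f u = w then a u else 0) * (if f t = w' then a t else 0) =
        if u = t then (if w = w' then (if f u = w then a u else 0) else 0) else 0 := by
      intro t
      by_cases h1 : u = t
      · subst h1
        by_cases h2 : f u = w
        · subst h2
          by_cases h3 : f u = w' <;> simp [h3, ha]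
        · simp [h2]
      · split_ifs <;> simp [ha, h1]
    simp only [e2, Finset.sum_ite_eq, mem_univ, if_true]
  simp only [e]
  split_ifs <;> simp

theorem qq_mul (h : TD x y p) (s : V → V) (ρ : V) (ι : S → V) (n : ℕ) (w w' : V) :
    qq s ρ ι x y p n w * qq s ρ ι x y p n w' = if w = w' then qq s ρ ι x y p n w else 0 := by
  induction n generalizing w w' with
  | zero =>
    simp only [qq]
    split_ifs <;> simp_all
  | succ n ih =>
    simp only [qq]
    have e1 : ∀ w, (∑ σ, if ι σ = w then p σ else 0) * x = 0 := by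
      intro w
      rw [Finset.sum_mul]
      refine Finset.sum_eq_zero fun σ _ => ?_
      split_ifs
      · exact h.px σ
      · simp
    have e2 : ∀ w, y * (∑ σ, if ι σ = w then p σ else 0) = 0 := by
      intro w
      rw [Finset.mul_sum]
      refine Finset.sum_eq_zero fun σ _ => ?_
      split_ifs
      · exact h.yp σ
      · simp
    have e3 := fib_mul ι p h.pp w w'
    have e4 := fib_mul s (qq s ρ ι x y p n) ih w w'
    have e5 := e1 w
    have e6 := e2 w'
    generalize (∑ σ, if ι σ = w then p σ else 0) = P at *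
    generalize (∑ σ, if ι σ = w' then p σ else 0) = P' at *
    generalize (∑ u, if s u = w then qq s ρ ι x y p n u else 0) = B at *
    generalize (∑ u, if s u = w' then qq s ρ ι x y p n u else 0) = B' at *
    have e7 : (P + x * B * y) * (P' + x * B' * y) =
        P * P' + (P * x) * B' * y + x * B * (y * P') + x * (B * (y * x) * B') * y := by
      noncomm_ring
    rw [e7, e5, e6, h.yx, mul_one, e3, e4]
    split_ifs <;> simp

theorem qq_fix (h : TD x y p) (s : V → V) (ρ : V) (ι : S → V) (N : ℕ) (hN : ∀ u, s^[N] u = ρ)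
    (w : V) : qq s ρ ι x y p (N + 1) w = qq s ρ ι x y p N w := by
  have := vanish s ρ N hN x y (fun n w => qq s ρ ι x y p (n + 1) w - qq s ρ ι x y p n w)
    (fun n w => by
      have e : (∑ u, if s u = w then qq s ρ ι x y p (n + 1) u - qq s ρ ι x y p n u else 0) =
          (∑ u, if s u = w then qq s ρ ι x y p (n + 1) u else 0) -
            ∑ u, if s u = w then qq s ρ ι x y p n u else 0 := by
        rw [← Finset.sum_sub_distrib]
        refine Finset.sum_congr rfl fun u _ => ?_
        split_ifs <;> simp
      rw [e]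
      conv_lhs => rw [qq, qq]
      noncomm_ring)
    (by rw [Finset.sum_sub_distrib, qq_sum h, qq_sum h, sub_self]) w
  exact sub_eq_zero.1 this

/-- existence of vertex idempotents -/
theorem ex_q (h : TD x y p) (s : V → V) (ρ : V) (ι : S → V) (N : ℕ) (hN : ∀ u, s^[N] u = ρ) :
    ∃ q : V → A, (∑ w, q w = 1) ∧ (∀ w w', q w * q w' = if w = w' then q w else 0) ∧
      ∀ w, q w = (∑ σ, if ι σ = w then p σ else 0) +
        x * (∑ u, if s u = w then q u else 0) * y :=
  ⟨qq s ρ ι x y p N, qq_sum h s ρ ι N, qq_mul h s ρ ι N, fun w => by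
    rw [← qq_fix h s ρ ι N hN w, qq]⟩

/-- uniqueness of vertex idempotents -/
theorem uniq_q (s : V → V) (ρ : V) (N : ℕ) (hN : ∀ u, s^[N] u = ρ) (x y : A) (P q q' : V → A)
    (h1 : ∑ w, q w = 1) (h1' : ∑ w, q' w = 1)
    (h2 : ∀ w, q w = P w + x * (∑ u, if s u = w then q u else 0) * y)
    (h2' : ∀ w, q' w = P w + x * (∑ u, if s u = w then q' u else 0) * y) (w : V) :
    q w = q' w := by
  have := vanish s ρ N hN x y (fun _ w => q w - q' w)
    (fun n w => by
      have e : (∑ u, if s u = w then q u - q' u else 0) =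
          (∑ u, if s u = w then q u else 0) - ∑ u, if s u = w then q' u else 0 := by
        rw [← Finset.sum_sub_distrib]
        refine Finset.sum_congr rfl fun u _ => ?_
        split_ifs <;> simp
      rw [e]
      conv_lhs => rw [h2 w, h2' w]
      noncomm_ring)
    (by rw [Finset.sum_sub_distrib, h1, h1', sub_self]) w
  exact sub_eq_zero.1 this

end T

end Pool.Agent.H.MP_40e4cd_al
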