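import Pool.Agent.H.MP_40e4cd_al.A

set_option autoImplicit false

namespace Pool.Agent.H.MP_40e4cd_al

open Finset

variable (K : Type) [Field K] {V : Type} [Fintype V] [DecidableEq V] (s r : V → V)

/-- image of a generator -/
def gen (t : Gen V V) : LPA K s r := RingQuot.mkAlgHom K (Rel K s r) (FreeAlgebra.ι K t)

theorem rel_eq {a b : FreeAlgebra K (Gen V V)} (h : Rel K s r a b) :
    RingQuot.mkAlgHom K (Rel K s r) a = RingQuot.mkAlgHom K (Rel K s r) b :=
  RingQuot.mkAlgHom_rel K h

theorem g_vv (u w : V) : gen K s r (.v u) * gen K s r (.v w) =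
    if u = w then gen K s r (.v u) else 0 := by
  have := rel_eq K s r (Rel.vv u w)
  rw [map_mul] at this
  unfold gen
  rw [this]
  split_ifs <;> simp

theorem g_er (a : V) : gen K s r (.e a) * gen K s r (.v (r a)) = gen K s r (.e a) := by
  have := rel_eq K s r (Rel.er a)
  rw [map_mul] at this
  exact this

theorem g_rg (a : V) : gen K s r (.v (r a)) * gen K s r (.g a) = gen K s r (.g a) := by
  have := rel_eq K s r (Rel.rg a)
  rw [map_mul] at this
  exact this

theorem g_ck1 (a b : V) : gen K s r (.g a) * gen K s r (.e b) =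
    if a = b then gen K s r (.v (r a)) else 0 := by
  have := rel_eq K s r (Rel.ck1 a b)
  rw [map_mul] at this
  unfold gen
  rw [this]
  split_ifs <;> simp

theorem g_ck2 (u : V) (h : ∃ a, s a = u) : gen K s r (.v u) =
    ∑ a, if s a = u then gen K s r (.e a) * gen K s r (.g a) else 0 := by
  have := rel_eq K s r (Rel.ck2 u h)
  rw [map_sum, Finset.sum_filter] at this
  simp only [map_mul] at this
  exact this

theorem g_one : ∑ u, gen K s r (.v u) = 1 := by
  have := rel_eq K s r Rel.one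
  rw [map_sum, map_one] at this
  exact this

/-- sum of arrows -/
def XX : LPA K s r := ∑ a, gen K s r (.e a)

/-- sum of ghost arrows -/
def YY : LPA K s r := ∑ a, gen K s r (.g a)

variable {K s r}

theorem X_v (hr : ∀ a, r a = a) (a : V) : XX K s r * gen K s r (.v a) = gen K s r (.e a) := by
  unfold XX
  rw [Finset.sum_mul]
  have e : ∀ b, gen K s r (.e b) * gen K s r (.v a) = if b = a then gen K s r (.e b) else 0 := by
    intro b
    rw [← g_er K s r b, mul_assoc, g_vv, hr]
    split_ifs with h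
    · rfl
    · simp
  simp only [e, Finset.sum_ite_eq', mem_univ, if_true]

theorem v_Y (hr : ∀ a, r a = a) (a : V) : gen K s r (.v a) * YY K s r = gen K s r (.g a) := by
  unfold YY
  rw [Finset.mul_sum]
  have e : ∀ b, gen K s r (.v a) * gen K s r (.g b) = if a = b then gen K s r (.g b) else 0 := by
    intro b
    rw [← g_rg K s r b, ← mul_assoc, g_vv, hr]
    split_ifs with h
    · rw [h]
    · simp
  simp only [e, Finset.sum_ite_eq, mem_univ, if_true]

variable {S : Type} [Fintype S] [DecidableEq S] {ι : S → V}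

theorem v_rec (hr : ∀ a, r a = a) (hi : Function.Injective ι)
    (hS : ∀ u, (∃ a, s a = u) ↔ ∀ σ, ι σ ≠ u) (w : V) :
    gen K s r (.v w) = (∑ σ, if ι σ = w then gen K s r (.v (ι σ)) else 0) +
      XX K s r * (∑ u, if s u = w then gen K s r (.v u) else 0) * YY K s r := by
  by_cases h : ∃ a, s a = w
  · have h' := (hS w).1 h
    simp only [h', if_false, Finset.sum_const_zero, zero_add]
    rw [g_ck2 K s r w h, Finset.mul_sum, Finset.sum_mul]
    refine Finset.sum_congr rfl fun a _ => ?_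
    split_ifs
    · rw [← X_v hr a, ← v_Y hr a, mul_assoc, mul_assoc, ← mul_assoc (gen K s r (.v a)), g_vv]
      simp
    · simp
  · have h' : ∃ σ, ι σ = w := by
      by_contra hc
      exact h ((hS w).2 fun σ hσ => hc ⟨σ, hσ⟩)
    obtain ⟨σ, rfl⟩ := h'
    have h2 : ∀ u, ¬ s u = ι σ := fun u hu => h ⟨u, hu⟩
    simp only [h2, if_false, Finset.sum_const_zero, mul_zero, zero_mul, add_zero, hi.eq_iff]
    rw [Finset.sum_ite_eq']
    simp

theorem L_td (hr : ∀ a, r a = a) (hi : Function.Injective ι)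
    (hS : ∀ u, (∃ a, s a = u) ↔ ∀ σ, ι σ ≠ u) :
    TD (XX K s r) (YY K s r) (fun σ => gen K s r (.v (ι σ))) where
  yx := by
    unfold XX YY
    rw [Finset.sum_mul_sum]
    simp only [g_ck1, Finset.sum_ite_eq, mem_univ, if_true, hr]
    exact g_one K s r
  xy := by
    have h := g_one K s r
    rw [Finset.sum_congr rfl fun w _ => v_rec (K := K) hr hi hS w, Finset.sum_add_distrib,
      Finset.sum_comm, ← Finset.sum_mul, ← Finset.mul_sum,
      Finset.sum_comm (f := fun w u => if s u = w then gen K s r (.v u) else 0)] at h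
    simp only [Finset.sum_ite_eq, mem_univ, if_true, g_one, mul_one] at h
    rw [add_comm, h]
  pp σ τ := by
    simp only [g_vv, hi.eq_iff]

variable {A : Type} [Ring A] [Algebra K A]

theorem L_lift (hr : ∀ a, r a = a) (hi : Function.Injective ι)
    (hS : ∀ u, (∃ a, s a = u) ↔ ∀ σ, ι σ ≠ u) (ρ : V) (N : ℕ) (hN : ∀ u, s^[N] u = ρ)
    {x y : A} {p : S → A} (h : TD x y p) :
    ∃ ψ : LPA K s r →ₐ[K] A, ψ (XX K s r) = x ∧ ψ (YY K s r) = y ∧
      ∀ σ, ψ (gen K s r (.v (ι σ))) = p σ := by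
  obtain ⟨q, q1, qm, qr⟩ := ex_q h s ρ ι N hN
  have e1 : ∀ w, (∑ σ, if ι σ = w then p σ else 0) * x = 0 := by
    intro w
    rw [Finset.sum_mul]
    refine Finset.sum_eq_zero fun σ _ => ?_
    split_ifs
    · exact h.px σ
    · simp
  have e2 : ∀ w, y * (∑ σ, if ι σ = w then p σ else 0) = 0 := by
    intro w
    rw [Finset.mul_sum]
    refine Finset.sum_eq_zero fun σ _ => ?_
    split_ifs
    · exact h.yp σ
    · simp
  have e3 : ∀ a, (∑ u, if s u = s a then q u else 0) * q a = q a := by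
    intro a
    rw [Finset.sum_mul]
    have : ∀ u, (if s u = s a then q u else 0) * q a = if u = a then q u else 0 := by
      intro u
      by_cases h1 : u = a
      · subst h1
        simp [qm]
      · split_ifs <;> simp [qm, h1]
    simp only [this, Finset.sum_ite_eq', mem_univ, if_true]
  have e4 : ∀ a, q a * (∑ u, if s u = s a then q u else 0) = q a := by
    intro a
    rw [Finset.mul_sum]
    have : ∀ u, q a * (if s u = s a then q u else 0) = if a = u then q a else 0 := by
      intro u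
      by_cases h1 : a = u
      · subst h1
        simp [qm]
      · split_ifs <;> simp [qm, h1]
    simp only [this, Finset.sum_ite_eq, mem_univ, if_true]
  have qq : ∀ a, q a * q a = q a := fun a => by simp [qm]
  let f : Gen V V → A := fun t => match t with
    | .v u => q u
    | .e a => x * q a
    | .g a => q a * y
  have hf : ∀ ⦃a b⦄, Rel K s r a b → FreeAlgebra.lift K f a = FreeAlgebra.lift K f b := by
    intro a b hab
    cases hab with
    | vv u w =>
      simp only [map_mul, FreeAlgebra.lift_ι_apply, f, qm]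
      split_ifs <;> simp [f]
    | se a =>
      simp only [map_mul, FreeAlgebra.lift_ι_apply, f]
      rw [qr (s a), add_mul, ← mul_assoc, e1, zero_mul, zero_add, mul_assoc, ← mul_assoc y, h.yx,
        one_mul, mul_assoc, e3]
    | er a =>
      simp only [map_mul, FreeAlgebra.lift_ι_apply, f, hr, mul_assoc, qq]
    | rg a =>
      simp only [map_mul, FreeAlgebra.lift_ι_apply, f, hr, ← mul_assoc, qq]
    | gs a =>
      simp only [map_mul, FreeAlgebra.lift_ι_apply, f]
      rw [qr (s a), mul_add, mul_assoc, e2, mul_zero, zero_add, ← mul_assoc, ← mul_assoc,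
        mul_assoc (q a), h.yx, mul_one, e4]
    | ck1 a b =>
      simp only [map_mul, FreeAlgebra.lift_ι_apply, f]
      rw [mul_assoc, ← mul_assoc y, h.yx, one_mul, qm]
      split_ifs <;> simp [f, hr]
    | ck2 u hu =>
      have h' := (hS u).1 hu
      rw [map_sum, Finset.sum_filter]
      simp only [map_mul, FreeAlgebra.lift_ι_apply, f]
      rw [qr u]
      simp only [h', if_false, Finset.sum_const_zero, zero_add]
      rw [Finset.mul_sum, Finset.sum_mul]
      refine Finset.sum_congr rfl fun a _ => ?_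
      split_ifs
      · rw [mul_assoc x (q a) (q a * y), ← mul_assoc (q a), qq, mul_assoc]
      · simp
    | one =>
      simp only [map_sum, FreeAlgebra.lift_ι_apply, f, q1, map_one]
  let ψ : LPA K s r →ₐ[K] A := RingQuot.liftAlgHom K ⟨FreeAlgebra.lift K f, hf⟩
  have hψ : ∀ t, ψ (gen K s r t) = f t := by
    intro t
    simp [ψ, gen]
  refine ⟨ψ, ?_, ?_, fun σ => ?_⟩
  · simp only [XX, map_sum, hψ, f, ← Finset.mul_sum, q1, mul_one]
  · simp only [YY, map_sum, hψ, f, ← Finset.sum_mul, q1, one_mul]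
  · have h2 : ∀ u, ¬ s u = ι σ := fun u hu => (hS _).1 ⟨u, hu⟩ σ rfl
    simp only [hψ, f]
    rw [qr]
    simp only [h2, if_false, Finset.sum_const_zero, mul_zero, zero_mul, add_zero, hi.eq_iff]
    rw [Finset.sum_ite_eq']
    simp

theorem L_ext (hr : ∀ a, r a = a) (hi : Function.Injective ι)
    (hS : ∀ u, (∃ a, s a = u) ↔ ∀ σ, ι σ ≠ u) (ρ : V) (N : ℕ) (hN : ∀ u, s^[N] u = ρ)
    (f g : LPA K s r →ₐ[K] A) (hx : f (XX K s r) = g (XX K s r))
    (hy : f (YY K s r) = g (YY K s r))
    (hp : ∀ σ, f (gen K s r (.v (ι σ))) = g (gen K s r (.v (ι σ)))) : f = g := by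
  have key : ∀ φ : LPA K s r →ₐ[K] A, ∀ w, φ (gen K s r (.v w)) =
      (∑ σ, if ι σ = w then φ (gen K s r (.v (ι σ))) else 0) +
      φ (XX K s r) * (∑ u, if s u = w then φ (gen K s r (.v u)) else 0) * φ (YY K s r) := by
    intro φ w
    conv_lhs => rw [v_rec hr hi hS w]
    simp only [map_add, map_mul, map_sum, apply_ite φ, map_zero]
  have hv : ∀ w, f (gen K s r (.v w)) = g (gen K s r (.v w)) := by
    refine uniq_q s ρ N hN (f (XX K s r)) (f (YY K s r))
      (fun w => ∑ σ, if ι σ = w then f (gen K s r (.v (ι σ))) else 0) _ _ ?_ ?_ (key f) ?_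
    · rw [← map_sum, g_one, map_one]
    · rw [← map_sum, g_one, map_one]
    · intro w
      rw [hx, hy]
      simp only [hp]
      exact key g w
  refine RingQuot.ringQuot_ext' K _ _ (FreeAlgebra.hom_ext (funext fun t => ?_))
  change f (gen K s r t) = g (gen K s r t)
  cases t with
  | v u => exact hv u
  | e a => rw [← X_v hr a, map_mul, map_mul, hx, hv]
  | g a => rw [← v_Y hr a, map_mul, map_mul, hy, hv]

theorem L_gen (hr : ∀ a, r a = a) (hi : Function.Injective ι)
    (hS : ∀ u, (∃ a, s a = u) ↔ ∀ σ, ι σ ≠ u) (ρ : V) (N : ℕ) (hN : ∀ u, s^[N] u = ρ)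
    (B : Subalgebra K (LPA K s r)) (hx : XX K s r ∈ B) (hy : YY K s r ∈ B)
    (hp : ∀ σ, gen K s r (.v (ι σ)) ∈ B) (t : LPA K s r) : t ∈ B := by
  have h := L_td (K := K) hr hi hS
  have h' : TD (A := B) ⟨_, hx⟩ ⟨_, hy⟩ (fun σ => ⟨_, hp σ⟩) :=
    ⟨Subtype.ext h.yx, Subtype.ext (by simpa using h.xy), fun σ τ => Subtype.ext (by
      have := h.pp σ τ
      split_ifs at this ⊢ <;> simpa using this)⟩
  obtain ⟨ψ, h1, h2, h3⟩ := L_lift (K := K) hr hi hS ρ N hN h'
  have := L_ext hr hi hS ρ N hN (B.val.comp ψ) (AlgHom.id K _) (by simp [h1]) (by simp [h2])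
    (fun σ => by simp [h3])
  have e : t = (ψ t : LPA K s r) := (AlgHom.congr_fun this t).symm
  rw [e]
  exact (ψ t).2

theorem L_iso {V' : Type} [Fintype V'] [DecidableEq V'] {s' r' : V' → V'} {ι' : S → V'}
    (hr : ∀ a, r a = a) (hi : Function.Injective ι)
    (hS : ∀ u, (∃ a, s a = u) ↔ ∀ σ, ι σ ≠ u) (ρ : V) (N : ℕ) (hN : ∀ u, s^[N] u = ρ)
    (hr' : ∀ a, r' a = a) (hi' : Function.Injective ι')
    (hS' : ∀ u, (∃ a, s' a = u) ↔ ∀ σ, ι' σ ≠ u) (ρ' : V') (N' : ℕ) (hN' : ∀ u, s'^[N'] u = ρ') :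
    Nonempty (LPA K s r ≃ₐ[K] LPA K s' r') := by
  obtain ⟨φ, a1, a2, a3⟩ := L_lift (K := K) hr hi hS ρ N hN (L_td (K := K) hr' hi' hS')
  obtain ⟨ψ, b1, b2, b3⟩ := L_lift (K := K) hr' hi' hS' ρ' N' hN' (L_td (K := K) hr hi hS)
  refine ⟨AlgEquiv.ofAlgHom φ ψ ?_ ?_⟩
  · exact L_ext hr' hi' hS' ρ' N' hN' _ _ (by simp [a1, b1]) (by simp [a2, b2])
      (fun σ => by simp [a3, b3])
  · exact L_ext hr hi hS ρ N hN _ _ (by simp [a1, b1]) (by simp [a2, b2])
      (fun σ => by simp [a3, b3])

end Pool.Agent.H.MP_40e4cd_al
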