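import Pool.Agent.H.MP_40e4cd_al.B

set_option autoImplicit false

namespace Pool.Agent.H.MP_40e4cd_al

open Finset

section G

variable {K : Type} [Field K] {A : Type} [Ring A] [Algebra K A]

/-- stabiliser of a subspace under left multiplication -/
def stab (W : Submodule K A) : Subalgebra K A where
  carrier := {t | ∀ w ∈ W, t * w ∈ W}
  mul_mem' := fun {a b} ha hb w hw => by
    rw [mul_assoc]
    exact ha _ (hb w hw)
  add_mem' := fun {a b} ha hb w hw => by
    rw [add_mul]
    exact W.add_mem (ha w hw) (hb w hw)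
  algebraMap_mem' := fun c w hw => by
    rw [← Algebra.smul_def]
    exact W.smul_mem c hw

theorem mem_stab {I : Type} (f : I → A) (t : A)
    (h : ∀ i, t * f i ∈ Submodule.span K (Set.range f)) :
    t ∈ stab (Submodule.span K (Set.range f)) := by
  intro w hw
  have : Submodule.span K (Set.range f) ≤
      (Submodule.span K (Set.range f)).comap (LinearMap.mulLeft K t) := by
    rw [Submodule.span_le]
    rintro _ ⟨i, rfl⟩
    exact h i
  exact this hw

variable {S : Type} [Fintype S] [DecidableEq S] {x y : A} {p : S → A}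

theorem TD.pxp (h : TD x y p) (σ τ : S) (j : ℕ) :
    p σ * (x ^ j * p τ) = if j = 0 ∧ σ = τ then p σ else 0 := by
  cases j with
  | zero => simp [h.pp]
  | succ j => rw [pow_succ', mul_assoc, ← mul_assoc, h.px, zero_mul]; simp

theorem TD.yx_pow (h : TD x y p) (j : ℕ) : y ^ j * x ^ j = 1 := by
  induction j with
  | zero => simp
  | succ j ih => rw [pow_succ y, pow_succ' x, mul_assoc, ← mul_assoc y, h.yx, one_mul, ih]

theorem TD.yxp (h : TD x y p) (σ : S) (i j : ℕ) (hij : i < j) : y ^ j * x ^ i * p σ = 0 := by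
  obtain ⟨k, rfl⟩ := Nat.exists_eq_add_of_lt hij
  rw [show i + k + 1 = (k + 1) + i by ring, pow_add, mul_assoc (y ^ (k + 1)), h.yx_pow, mul_one,
    pow_succ, mul_assoc, h.yp, mul_zero]

theorem TD.pyx (h : TD x y p) (σ : S) (i j : ℕ) (hij : i < j) : p σ * (y ^ i * x ^ j) = 0 := by
  obtain ⟨k, rfl⟩ := Nat.exists_eq_add_of_lt hij
  rw [add_assoc, pow_add, ← mul_assoc (y ^ i), h.yx_pow, one_mul, pow_succ', ← mul_assoc, h.px,
    zero_mul]

theorem not_prime (h : TD x y p)
    (hg : ∀ B : Subalgebra K A, x ∈ B → y ∈ B → (∀ σ, p σ ∈ B) → ∀ t, t ∈ B)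
    (σ τ : S) (hne : σ ≠ τ) (t : A) : p σ * t * p τ = 0 := by
  let f : ℕ → A := fun j => x ^ j * p τ
  have hf : ∀ j, f j ∈ Submodule.span K (Set.range f) := fun j => Submodule.subset_span ⟨j, rfl⟩
  have ht : t ∈ stab (Submodule.span K (Set.range f)) := by
    refine hg _ (mem_stab f _ fun j => ?_) (mem_stab f _ fun j => ?_)
      (fun μ => mem_stab f _ fun j => ?_) t
    · have := hf (j + 1)
      simp only [f, pow_succ', mul_assoc] at this ⊢
      exact this
    · cases j with
      | zero => simp [f, h.yp]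
      | succ j =>
        have := hf j
        simp only [f] at this ⊢
        rw [pow_succ', mul_assoc, ← mul_assoc y, h.yx, one_mul]
        exact this
    · simp only [f]
      rw [h.pxp]
      split_ifs with h1
      · have := hf 0
        simp only [f, pow_zero, one_mul] at this
        rw [h1.2]
        exact this
      · exact Submodule.zero_mem _
  have h1 := ht _ (hf 0)
  simp only [f, pow_zero, one_mul] at h1
  have h2 : Submodule.span K (Set.range f) ≤ LinearMap.ker (LinearMap.mulLeft K (p σ)) := by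
    rw [Submodule.span_le]
    rintro _ ⟨j, rfl⟩
    simp only [f, SetLike.mem_coe, LinearMap.mem_ker, LinearMap.mulLeft_apply]
    rw [h.pxp]
    simp [hne]
  rw [mul_assoc]
  exact h2 h1

theorem prime_aux {p : Unit → A} (h : TD x y p)
    (hg : ∀ B : Subalgebra K A, x ∈ B → y ∈ B → (∀ σ, p σ ∈ B) → ∀ t, t ∈ B)
    (a : A) (ha : a ≠ 0) : ∃ u w : A, u * a * w = p () := by
  let f : ℕ × ℕ → A := fun ij => x ^ ij.1 * y ^ ij.2
  have hf : ∀ j, f j ∈ Submodule.span K (Set.range f) := fun j => Submodule.subset_span ⟨j, rfl⟩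
  have hx : x ∈ stab (Submodule.span K (Set.range f)) := mem_stab f _ fun j => by
    have := hf (j.1 + 1, j.2)
    simp only [f, pow_succ', mul_assoc] at this ⊢
    exact this
  have hy : y ∈ stab (Submodule.span K (Set.range f)) := mem_stab f _ fun ⟨i, j⟩ => by
    cases i with
    | zero =>
      have := hf (0, j + 1)
      simp only [f, pow_succ', pow_zero, one_mul] at this ⊢
      exact this
    | succ i =>
      have := hf (i, j)
      simp only [f] at this ⊢
      rw [pow_succ', mul_assoc, ← mul_assoc y, h.yx, one_mul]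
      exact this
  have hp : p () = 1 - x * y := by
    have := h.xy
    simp only [univ_unique, Finset.sum_singleton] at this
    exact eq_sub_of_add_eq' this
  have ht : a ∈ stab (Submodule.span K (Set.range f)) := by
    refine hg _ hx hy (fun μ => ?_) a
    rw [hp]
    exact Subalgebra.sub_mem _ (Subalgebra.one_mem _) (Subalgebra.mul_mem _ hx hy)
  have h1 := ht _ (hf (0, 0))
  simp only [f, pow_zero, mul_one] at h1
  obtain ⟨c, hc⟩ := (Finsupp.mem_span_range_iff_exists_finsupp).1 h1
  have hc0 : c.support.Nonempty := by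
    rw [Finsupp.support_nonempty_iff]
    rintro rfl
    exact ha (by simpa using hc.symm)
  obtain ⟨m, hm, hmin⟩ := Finset.exists_min_image c.support (fun ij => ij.2) hc0
  have hcm : c m ≠ 0 := Finsupp.mem_support_iff.1 hm
  refine ⟨(c m)⁻¹ • (p () * y ^ m.1), x ^ m.2 * p (), ?_⟩
  have key : p () * y ^ m.1 * a * (x ^ m.2 * p ()) = c m • p () := by
    rw [← hc, Finsupp.sum, Finset.mul_sum, Finset.sum_mul, Finset.sum_eq_single m]
    · rw [mul_smul_comm, smul_mul_assoc]
      congr 1
      rw [mul_assoc (p ()), ← mul_assoc (y ^ m.1), h.yx_pow, one_mul, mul_assoc,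
        ← mul_assoc (y ^ m.2), h.yx_pow, one_mul, h.pp]
      simp
    · intro n hn hne
      rw [mul_smul_comm, smul_mul_assoc]
      have : p () * y ^ m.1 * (x ^ n.1 * y ^ n.2) * (x ^ m.2 * p ()) = 0 := by
        rcases (hmin n hn).lt_or_eq with h2 | h2
        · rw [mul_assoc, mul_assoc (x ^ n.1), ← mul_assoc (y ^ n.2), h.yxp _ _ _ h2]
          simp
        · have h3 : n.1 ≠ m.1 := fun h3 => hne (Prod.ext h3 h2.symm)
          rw [← h2, mul_assoc, mul_assoc (x ^ n.1), ← mul_assoc (y ^ m.2), h.yx_pow, one_mul]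
          rcases lt_or_gt_of_ne h3 with h4 | h4
          · rw [mul_assoc, ← mul_assoc (y ^ m.1), h.yxp _ _ _ h4, mul_zero]
          · rw [mul_assoc, ← mul_assoc (y ^ m.1), ← mul_assoc, h.pyx _ _ _ h4, zero_mul]
      rw [this, smul_zero]
    · intro h2
      exact absurd hm h2
  rw [smul_mul_assoc, smul_mul_assoc, key, smul_smul, inv_mul_cancel₀ hcm, one_smul]

/-- right shift -/
def shR (K : Type) [Field K] : Module.End K (ℕ → K) where
  toFun f := fun n => Nat.casesOn n 0 f
  map_add' f g := by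
    funext n
    cases n <;> simp
  map_smul' c f := by
    funext n
    cases n <;> simp

/-- left shift -/
def shL (K : Type) [Field K] : Module.End K (ℕ → K) where
  toFun f := fun n => f (n + 1)
  map_add' _ _ := rfl
  map_smul' _ _ := rfl

theorem sh_td (K : Type) [Field K] (σ : S) :
    TD (shR K) (shL K) (fun τ => if τ = σ then 1 - shR K * shL K else 0) where
  yx := rfl
  xy := by simp
  pp a b := by
    have e : shL K * shR K = 1 := rfl
    have e2 : (1 - shR K * shL K) * (1 - shR K * shL K) = 1 - shR K * shL K := by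
      have : (1 - shR K * shL K) * (1 - shR K * shL K) =
        1 - shR K * shL K - shR K * shL K + shR K * (shL K * shR K) * shL K := by
        generalize shR K = a
        generalize shL K = b
        simp only [mul_sub, sub_mul, mul_one, one_mul, mul_assoc]
        abel
      rw [this, e, mul_one]
      abel
    by_cases h1 : a = σ <;> by_cases h2 : b = σ <;> by_cases h3 : a = b <;> simp_all

theorem sh_ne (K : Type) [Field K] : (1 - shR K * shL K) ≠ 0 := by
  intro h
  have := congrFun (LinearMap.congr_fun h (fun _ => 1)) 0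
  simp [shR] at this

end G

variable {K : Type} [Field K] {V : Type} [Fintype V] [DecidableEq V] {s r : V → V}
variable {S : Type} [Fintype S] [DecidableEq S] {ι : S → V}

theorem sink_ne (hr : ∀ a, r a = a) (hi : Function.Injective ι)
    (hS : ∀ u, (∃ a, s a = u) ↔ ∀ σ, ι σ ≠ u) (ρ : V) (N : ℕ) (hN : ∀ u, s^[N] u = ρ) (σ : S) :
    gen K s r (.v (ι σ)) ≠ 0 := by
  obtain ⟨ψ, -, -, h3⟩ := L_lift (K := K) hr hi hS ρ N hN (sh_td K σ)
  intro h
  have := h3 σ
  rw [h, map_zero] at this
  simp only [if_true] at this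
  exact sh_ne K this.symm

theorem L_not_iso {V' : Type} [Fintype V'] [DecidableEq V'] {s' r' : V' → V'} {ι' : Unit → V'}
    (hr : ∀ a, r a = a) (hi : Function.Injective ι)
    (hS : ∀ u, (∃ a, s a = u) ↔ ∀ σ, ι σ ≠ u) (ρ : V) (N : ℕ) (hN : ∀ u, s^[N] u = ρ)
    (hr' : ∀ a, r' a = a)
    (hS' : ∀ u, (∃ a, s' a = u) ↔ ∀ σ, ι' σ ≠ u) (ρ' : V') (N' : ℕ) (hN' : ∀ u, s'^[N'] u = ρ')
    (σ τ : S) (hne : σ ≠ τ) :
    IsEmpty (LPA K s r ≃ₐ[K] LPA K s' r') := by
  refine ⟨fun φ => ?_⟩
  have hi' : Function.Injective ι' := fun _ _ _ => rfl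
  have h1 := not_prime (L_td (K := K) hr hi hS) (L_gen hr hi hS ρ N hN) σ τ hne
  have h2 := prime_aux (L_td (K := K) hr' hi' hS') (L_gen hr' hi' hS' ρ' N' hN')
  obtain ⟨u, w, e⟩ := h2 (φ (gen K s r (.v (ι σ))))
    ((map_ne_zero_iff φ φ.injective).2 (sink_ne hr hi hS ρ N hN σ))
  obtain ⟨u', w', e'⟩ := h2 (φ (gen K s r (.v (ι τ))))
    ((map_ne_zero_iff φ φ.injective).2 (sink_ne hr hi hS ρ N hN τ))
  have h3 := congrArg φ (h1 (φ.symm (w * u')))
  rw [map_mul, map_mul, map_zero, AlgEquiv.apply_symm_apply] at h3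
  have h4 := g_vv K s' r' (ι' ()) (ι' ())
  simp only [if_true] at h4
  apply sink_ne (K := K) hr' hi' hS' ρ' N' hN' ()
  rw [← h4]
  nth_rewrite 1 [← e]
  rw [← e']
  have : ∀ a b : LPA K s' r', u * a * w * (u' * b * w') = u * (a * (w * u') * b) * w' := by
    intro a b
    simp only [mul_assoc]
  rw [this, h3, mul_zero, zero_mul]

end Pool.Agent.H.MP_40e4cd_al
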